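import Mathlib

/-! Determinants of Toeplitz matrices read on the second half of the rows: an exact factorisation. -/

set_option autoImplicit false
set_option linter.unusedSectionVars false

namespace Pool.Agent.K6.H19.LG

open Finset Polynomial Matrix

variable {K : Type*} [Field K] {p : ℕ}

/-- the convolution -/
noncomputable def act (κ : ZMod p → K) (m : ℕ) (F : K[X]) (i : ℕ) : K :=
  ∑ j ∈ range (2 * m + 1), κ ((i : ZMod p) - (j : ZMod p)) * F.coeff j

lemma act_add (κ : ZMod p → K) (m : ℕ) (F G : K[X]) (i : ℕ) :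
    act κ m (F + G) i = act κ m F i + act κ m G i := by
  unfold act
  rw [← Finset.sum_add_distrib]
  exact Finset.sum_congr rfl fun j _ => by rw [coeff_add]; ring

lemma act_sub (κ : ZMod p → K) (m : ℕ) (F G : K[X]) (i : ℕ) :
    act κ m (F - G) i = act κ m F i - act κ m G i := by
  unfold act
  rw [← Finset.sum_sub_distrib]
  exact Finset.sum_congr rfl fun j _ => by rw [coeff_sub]; ring

lemma act_C (κ : ZMod p → K) (m : ℕ) (c : K) (F : K[X]) (i : ℕ) :
    act κ m (C c * F) i = c * act κ m F i := by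
  unfold act
  rw [Finset.mul_sum]
  exact Finset.sum_congr rfl fun j _ => by rw [coeff_C_mul]; ring

lemma act_low (κ : ZMod p → K) {m : ℕ} {F : K[X]} (h : F.natDegree ≤ m) (i : ℕ) :
    act κ m F i = ∑ j : Fin (m + 1), κ ((i : ZMod p) - ((j : ℕ) : ZMod p)) * F.coeff j := by
  unfold act
  rw [Fin.sum_univ_eq_sum_range (fun j => κ ((i : ZMod p) - ((j : ℕ) : ZMod p)) * F.coeff j) (m + 1)]
  symm
  apply Finset.sum_subset
  · intro j hj; simp only [Finset.mem_range] at hj ⊢; omega
  · intro j _ hj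
    simp only [Finset.mem_range, not_lt] at hj
    rw [coeff_eq_zero_of_natDegree_lt (by omega), mul_zero]

/-- the data -/
structure Half (p : ℕ) (K : Type*) [Field K] (m : ℕ) (κ : ZMod p → K) (γ : K) (P M : K[X])
    (z : Fin (m + 1) → K) : Prop where
  hP : P.Monic
  dP : P.natDegree = m
  hM : M = ∏ l, (X - C (z l))
  hz : Function.Injective z
  plus : ∀ F : K[X], F.natDegree ≤ 2 * m → P ∣ F → ∀ i ≤ 2 * m, act κ m F i = γ * F.coeff i
  minus : ∀ F : K[X], F.natDegree ≤ 2 * m → M ∣ F → ∀ i ≤ 2 * m, act κ m F i = - γ * F.coeff i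

variable {m : ℕ} {κ : ZMod p → K} {γ : K} {P M : K[X]} {z : Fin (m + 1) → K}
  (D : Half p K m κ γ P M z)
include D

lemma Half.M_monic : M.Monic := by
  rw [D.hM]; exact monic_prod_of_monic _ _ fun l _ => monic_X_sub_C _

lemma Half.M_deg : M.natDegree = m + 1 := by
  rw [D.hM, natDegree_prod_of_monic _ _ fun l _ => monic_X_sub_C _]
  simp

lemma Half.M_root (l : Fin (m + 1)) : M.eval (z l) = 0 := by
  rw [D.hM, eval_prod]
  exact Finset.prod_eq_zero (Finset.mem_univ l) (by simp)

lemma Half.mod_deg (F : K[X]) : (F %ₘ M).natDegree ≤ m := by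
  have h := natDegree_modByMonic_lt F D.M_monic (by
    intro h1
    have := D.M_deg
    rw [h1] at this
    simp at this)
  rw [D.M_deg] at h
  omega

/-- the action on a reduction -/
lemma Half.act_mod {W : K[X]} (hW : W.natDegree ≤ 2 * m) (hPW : P ∣ W) {i : ℕ} (hi : i ≤ 2 * m) :
    act κ m (W %ₘ M) i = 2 * γ * W.coeff i - γ * (W %ₘ M).coeff i := by
  have h1 : W %ₘ M = W - M * (W /ₘ M) := by
    rw [modByMonic_eq_sub_mul_div]
  have h2 : (M * (W /ₘ M)).natDegree ≤ 2 * m := by
    have : M * (W /ₘ M) = W - W %ₘ M := by rw [h1]; ring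
    rw [this]
    refine (natDegree_sub_le _ _).trans (max_le hW ?_)
    have := D.mod_deg W
    omega
  have h3 := D.minus _ h2 (Dvd.intro _ rfl) i hi
  have h4 := D.plus _ hW hPW i hi
  have h5 : act κ m (W %ₘ M) i = act κ m W i - act κ m (M * (W /ₘ M)) i := by
    rw [← act_sub, ← h1]
  have h6 : (W %ₘ M).coeff i = W.coeff i - (M * (W /ₘ M)).coeff i := by
    rw [← coeff_sub, ← h1]
  rw [h5, h3, h4, h6]
  ring

/-- the matrix of the multiplication by `P` modulo `M` -/
lemma Half.det_N (N : Matrix (Fin (m + 1)) (Fin (m + 1)) K)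
    (hN : ∀ i k, N i k = ((P * X ^ (k : ℕ)) %ₘ M).coeff (i : ℕ)) : N.det = ∏ l, P.eval (z l) := by
  have h1 : vandermonde z * N = Matrix.diagonal (fun l => P.eval (z l)) * vandermonde z := by
    ext l k
    rw [Matrix.mul_apply, Matrix.diagonal_mul]
    simp only [vandermonde_apply, hN]
    have hd := D.mod_deg (P * X ^ (k : ℕ))
    have e1 : ((P * X ^ (k : ℕ)) %ₘ M).eval (z l) = P.eval (z l) * z l ^ (k : ℕ) := by
      have h1 := modByMonic_eq_sub_mul_div (P * X ^ (k : ℕ)) M
      rw [h1, eval_sub, eval_mul (p := M), D.M_root]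
      simp
    rw [← e1, eval_eq_sum_range' (n := m + 1) (by omega),
      ← Fin.sum_univ_eq_sum_range (fun i => ((P * X ^ (k : ℕ)) %ₘ M).coeff i * z l ^ i)]
    exact Finset.sum_congr rfl fun i _ => by ring
  have h2 := congrArg Matrix.det h1
  rw [Matrix.det_mul, Matrix.det_mul, Matrix.det_diagonal] at h2
  have h3 : (vandermonde z).det ≠ 0 := det_vandermonde_ne_zero_iff.mpr D.hz
  apply mul_left_cancel₀ h3
  rw [h2, mul_comm]

/-- the determinant of order `m + 1` -/
theorem Half.det (A : Matrix (Fin (m + 1)) (Fin (m + 1)) K)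
    (hA : ∀ i j, A i j = κ ((m : ZMod p) + ((i : ℕ) : ZMod p) - ((j : ℕ) : ZMod p))) :
    A.det * ∏ l, P.eval (z l) = 2 ^ m * γ ^ (m + 1) := by
  set N : Matrix (Fin (m + 1)) (Fin (m + 1)) K :=
    Matrix.of fun i k => ((P * X ^ (k : ℕ)) %ₘ M).coeff (i : ℕ) with hN
  rw [← D.det_N N (fun i k => rfl), ← Matrix.det_mul]
  have hdeg : ∀ k : Fin (m + 1), (P * X ^ (k : ℕ)).natDegree ≤ 2 * m := by
    intro k
    rw [natDegree_mul_X_pow _ D.hP.ne_zero, D.dP]
    have := k.2
    omega
  have hU : ∀ i k, (A * N) i k = 2 * γ * (P * X ^ (k : ℕ)).coeff (m + i)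
      - γ * ((P * X ^ (k : ℕ)) %ₘ M).coeff (m + i) := by
    intro i k
    have h := D.act_mod (hdeg k) (Dvd.intro _ rfl) (i := m + i) (by have := i.2; omega)
    rw [← h, act_low κ (D.mod_deg _), Matrix.mul_apply]
    apply Finset.sum_congr rfl
    intro j _
    rw [hA, hN]
    push_cast
    rfl
  have hut : (A * N).BlockTriangular id := by
    intro i k hik
    simp only [id] at hik
    have hlt : (k : ℕ) < i := hik
    rw [hU, coeff_mul_X_pow', if_pos (by omega), coeff_eq_zero_of_natDegree_lt (by rw [D.dP]; omega),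
      coeff_eq_zero_of_natDegree_lt (lt_of_le_of_lt (D.mod_deg _) (by omega))]
    ring
  rw [Matrix.det_of_isUpperTriangular hut, Fin.prod_univ_succ]
  have h0 : (A * N) 0 0 = γ := by
    rw [hU]
    have e1 : P %ₘ M = P := by
      rw [modByMonic_eq_self_iff D.M_monic]
      apply degree_lt_degree
      rw [D.dP, D.M_deg]
      omega
    have e2 : P.coeff m = 1 := by
      have := D.hP.coeff_natDegree
      rwa [D.dP] at this
    simp only [Fin.val_zero, pow_zero, mul_one, add_zero, e1, e2]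
    ring
  have h1 : ∀ i : Fin m, (A * N) i.succ i.succ = 2 * γ := by
    intro i
    have e2 : P.coeff m = 1 := by
      have := D.hP.coeff_natDegree
      rwa [D.dP] at this
    rw [hU, coeff_mul_X_pow, e2, coeff_eq_zero_of_natDegree_lt (lt_of_le_of_lt (D.mod_deg _) (by
      rw [Fin.val_succ]; omega))]
    ring
  rw [h0, Finset.prod_congr rfl (fun i _ => h1 i)]
  simp only [Finset.prod_const, Finset.card_univ, Fintype.card_fin]
  rw [mul_pow, pow_succ γ m]
  ring

omit D in
/-- the inverse of `X` modulo a divisor of `X ^ (N + 1) - 1` -/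
lemma inv_mod {Q : K[X]} (hQ : Q.Monic) {n N : ℕ} (hn : Q.natDegree = n + 1) (h : Q ∣ X ^ (N + 1) - 1) :
    (X ^ N %ₘ Q).coeff n = - (Q.coeff 0)⁻¹ ∧ (X ^ N %ₘ Q).coeff 0 = - Q.coeff 1 / Q.coeff 0 := by
  set R := X ^ N %ₘ Q with hR
  have hQ1 : Q ≠ 1 := by
    intro h1; rw [h1] at hn; simp at hn
  have hRd : R.natDegree < n + 1 := by
    rw [← hn]; exact natDegree_modByMonic_lt _ hQ hQ1
  have h1 : Q ∣ X * R - 1 := by
    have e : X * R - 1 = (X ^ (N + 1) - 1) - Q * (X * (X ^ N /ₘ Q)) := by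
      rw [hR, modByMonic_eq_sub_mul_div]; ring
    rw [e]
    exact dvd_sub h (Dvd.intro _ rfl)
  obtain ⟨S, hS⟩ := h1
  have hSd : S.natDegree = 0 := by
    by_contra hne
    have hS0 : S ≠ 0 := by rintro rfl; simp at hne
    have h2 : (Q * S).natDegree = n + 1 + S.natDegree := by
      rw [natDegree_mul hQ.ne_zero hS0, hn]
    have h3 : (X * R - 1 : K[X]).natDegree ≤ n + 1 := by
      refine (natDegree_sub_le _ _).trans (max_le ?_ (by simp))
      refine natDegree_mul_le.trans ?_
      have : (X : K[X]).natDegree ≤ 1 := natDegree_X_le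
      omega
    rw [hS, h2] at h3
    omega
  obtain ⟨c, rfl⟩ := natDegree_eq_zero.mp hSd
  have e0 : - 1 = Q.coeff 0 * c := by
    have := congrArg (fun f => Polynomial.coeff f 0) hS
    simpa using this
  have hne : Q.coeff 0 ≠ 0 := by
    intro h0; rw [h0] at e0; simp at e0
  have en : R.coeff n = c := by
    have := congrArg (fun f => Polynomial.coeff f (n + 1)) hS
    simp only [coeff_sub, coeff_X_mul, coeff_mul_C] at this
    rw [coeff_one, if_neg (by omega), sub_zero] at this
    have h1 : Q.coeff (n + 1) = 1 := by rw [← hn]; exact hQ.coeff_natDegree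
    rw [this, h1, one_mul]
  have e1 : R.coeff 0 = Q.coeff 1 * c := by
    have := congrArg (fun f => Polynomial.coeff f 1) hS
    simp only [coeff_sub, coeff_mul_C] at this
    rw [show (1 : ℕ) = 0 + 1 from rfl, coeff_X_mul, coeff_one, if_neg (by omega), sub_zero] at this
    exact this
  have hc : c = - (Q.coeff 0)⁻¹ := by
    field_simp
    linear_combination -e0
  refine ⟨by rw [en, hc], ?_⟩
  rw [e1, hc]
  field_simp

/-- the last column of the inverse -/
theorem Half.solve (hm : 0 < m) (h2 : (2 : K) ≠ 0) (hγ : γ ≠ 0)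
    (hPd : P ∣ X ^ (2 * m + 1) - 1) (hMd : M ∣ X ^ (2 * m + 1) - 1)
    (A : Matrix (Fin (m + 1)) (Fin (m + 1)) K)
    (hA : ∀ i j, A i j = κ ((m : ZMod p) + ((i : ℕ) : ZMod p) - ((j : ℕ) : ZMod p))) :
    ∃ q : Fin (m + 1) → K, A.mulVec q = Pi.single (Fin.last m) 1 ∧
      q 0 = (- M.coeff 1 / M.coeff 0 + P.coeff 1 / P.coeff 0 - P.coeff 0 / M.coeff 0) / (2 * γ) := by
  obtain ⟨n, hn⟩ : ∃ n, m = n + 1 := ⟨m - 1, by omega⟩
  obtain ⟨a1, a2⟩ := inv_mod D.M_monic (n := m) (N := 2 * m) D.M_deg hMd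
  obtain ⟨-, a4⟩ := inv_mod D.hP (n := n) (N := 2 * m) (by rw [D.dP, hn]) hPd
  have hP1 : P ≠ 1 := by
    intro h; have := D.dP; rw [h] at this; simp at this; omega
  set W : K[X] := P * (X ^ (2 * m) /ₘ P) with hW
  have hW' : W = X ^ (2 * m) - X ^ (2 * m) %ₘ P := by
    rw [modByMonic_eq_sub_mul_div]; ring
  have hrd : (X ^ (2 * m) %ₘ P).natDegree < m := by
    have := natDegree_modByMonic_lt (X ^ (2 * m)) D.hP hP1
    rwa [D.dP] at this
  have hWd : W.natDegree ≤ 2 * m := by
    rw [hW']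
    refine (natDegree_sub_le _ _).trans (max_le (by simp) (by omega))
  set V0 : K[X] := W %ₘ M with hV0
  have hV0' : V0 = X ^ (2 * m) %ₘ M - X ^ (2 * m) %ₘ P := by
    rw [hV0, hW', sub_modByMonic]
    congr 1
    rw [modByMonic_eq_self_iff D.M_monic]
    apply degree_lt_degree
    rw [D.M_deg]
    omega
  have hc : V0.coeff m = - (M.coeff 0)⁻¹ := by
    rw [hV0', coeff_sub, a1, coeff_eq_zero_of_natDegree_lt hrd, sub_zero]
  have h0 : V0.coeff 0 = - M.coeff 1 / M.coeff 0 + P.coeff 1 / P.coeff 0 := by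
    rw [hV0', coeff_sub, a2, a4]; ring
  have hV0d : V0.natDegree ≤ m := D.mod_deg W
  set V : K[X] := C (1 / (2 * γ)) * V0 + C (V0.coeff m / (2 * γ)) * P with hV
  have hVd : V.natDegree ≤ m := by
    rw [hV]
    refine (natDegree_add_le _ _).trans (max_le ?_ ?_)
    · exact (natDegree_C_mul_le _ _).trans hV0d
    · exact (natDegree_C_mul_le _ _).trans D.dP.le
  refine ⟨fun j => V.coeff j, ?_, ?_⟩
  · funext i
    have hi := i.2
    have e1 : A.mulVec (fun j : Fin (m + 1) => V.coeff j) i = act κ m V (m + i) := by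
      rw [act_low κ hVd, Matrix.mulVec, dotProduct]
      apply Finset.sum_congr rfl
      intro j _
      rw [hA]
      push_cast
      rfl
    rw [e1, hV, act_add, act_C, act_C, D.act_mod hWd (Dvd.intro _ rfl) (by omega),
      D.plus P (by rw [D.dP]; omega) dvd_rfl _ (by omega)]
    have e2 : W.coeff (m + i) = if (i : ℕ) = m then 1 else 0 := by
      rw [hW', coeff_sub, coeff_X_pow, coeff_eq_zero_of_natDegree_lt (p := X ^ (2 * m) %ₘ P) (by omega), sub_zero]
      by_cases h : (i : ℕ) = m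
      · rw [if_pos h, if_pos (by omega)]
      · rw [if_neg h, if_neg (by omega)]
    have ePm : P.coeff m = 1 := by
      have := D.hP.coeff_natDegree
      rwa [D.dP] at this
    by_cases hi0 : (i : ℕ) = 0
    · have hne : i ≠ Fin.last m := by
        intro h; rw [h, Fin.val_last] at hi0; omega
      rw [Pi.single_eq_of_ne hne, e2, if_neg (by omega), hi0, add_zero, ePm]
      rw [← hV0]
      field_simp
      ring
    · rw [← hV0, coeff_eq_zero_of_natDegree_lt (p := V0) (by omega),
        coeff_eq_zero_of_natDegree_lt (p := P) (by rw [D.dP]; omega), e2]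
      by_cases him : (i : ℕ) = m
      · have : i = Fin.last m := Fin.ext (by rw [him, Fin.val_last])
        rw [if_pos him, this, Pi.single_eq_same]
        field_simp
        ring
      · have : i ≠ Fin.last m := by
          intro h; rw [h, Fin.val_last] at him; exact him rfl
        rw [if_neg him, Pi.single_eq_of_ne this]
        ring
  · show V.coeff ((0 : Fin (m + 1)) : ℕ) = _
    rw [Fin.val_zero, hV, coeff_add, coeff_C_mul, coeff_C_mul, h0, hc]
    ring

end Pool.Agent.K6.H19.LG
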