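import Mathlib
import Pool.Agent.K6.H19.LG.A
import Pool.Agent.R945.TP.V

/-! The half system attached to the quadratic character: Hankel matrices of Legendre symbols. -/

set_option autoImplicit false
set_option linter.unusedSectionVars false

namespace Pool.Agent.K6.H19.LG

open Finset Polynomial Matrix Pool.Agent.Helper184.Chapman Pool.Agent.R945.TP

variable {p : ℕ} [Fact p.Prime]

/-- the polynomial with roots `ζ^r`, `r ∈ s` -/
noncomputable def Pol (s : Finset (ZMod p)) : ℂ[X] := ∏ r ∈ s, (X - C (sc p r))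

lemma Pol_monic (s : Finset (ZMod p)) : (Pol s).Monic := monic_prod_of_monic _ _ fun _ _ => monic_X_sub_C _

lemma Pol_deg (s : Finset (ZMod p)) : (Pol s).natDegree = s.card := by
  rw [Pol, natDegree_prod_of_monic _ _ fun _ _ => monic_X_sub_C _]
  simp

lemma Pol_root {s : Finset (ZMod p)} {r : ZMod p} (hr : r ∈ s) : (Pol s).eval (sc p r) = 0 := by
  rw [Pol, eval_prod]; exact Finset.prod_eq_zero hr (by simp)

lemma sc_inj {r r' : ZMod p} (h : sc p r = sc p r') : r = r' := by
  have h1 : sc p (r - r') = 1 := by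
    rw [sub_eq_add_neg, AddChar.map_add_eq_mul, h, ← AddChar.map_add_eq_mul]; simp
  have := (sc_prim.zmod_char_eq_one_iff p _).mp h1
  exact sub_eq_zero.mp this

lemma sc_ne (r : ZMod p) : sc p r ≠ 0 := by
  intro h
  have h1 : sc p r * sc p (-r) = 1 := by rw [← AddChar.map_add_eq_mul]; simp
  rw [h] at h1; simp at h1

lemma sc_natpow (r : ZMod p) (k : ℕ) : sc p r ^ k = sc p (r * (k : ZMod p)) := by
  rw [← AddChar.map_nsmul_eq_pow, nsmul_eq_mul, mul_comm]

/-- sum over the residue classes as a sum over a range -/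
lemma sum_range_eq (N : ℕ) (hN : p = N) (f : ZMod p → ℂ) : ∑ j ∈ range N, f (j : ZMod p) = ∑ x : ZMod p, f x := by
  subst hN
  apply Finset.sum_bij (fun (j : ℕ) _ => (j : ZMod p))
  · intro a _; exact Finset.mem_univ _
  · intro a ha b hb hab
    rw [Finset.mem_range] at ha hb
    have := congrArg ZMod.val hab
    rwa [ZMod.val_natCast_of_lt ha, ZMod.val_natCast_of_lt hb] at this
  · intro b _
    exact ⟨b.val, Finset.mem_range.mpr (ZMod.val_lt b), ZMod.natCast_zmod_val b⟩
  · intro a _; rfl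

lemma ft_inj (h : ZMod p → ℂ) (H : ∀ r, ∑ i, sc p (r * i) * h i = 0) (j : ZMod p) : h j = 0 := by
  have hp : p.Prime := Fact.out
  have h1 : ∑ r : ZMod p, sc p (-(r * j)) * ∑ i, sc p (r * i) * h i = p * h j := by
    have e1 : ∀ r : ZMod p, sc p (-(r * j)) * ∑ i, sc p (r * i) * h i = ∑ i, sc p (r * (i - j)) * h i := by
      intro r
      rw [Finset.mul_sum]
      apply Finset.sum_congr rfl
      intro i _
      rw [← mul_assoc, ← AddChar.map_add_eq_mul]
      congr 2
      ring
    rw [Finset.sum_congr rfl (fun r _ => e1 r), Finset.sum_comm]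
    have e2 : ∀ i : ZMod p, ∑ r : ZMod p, sc p (r * (i - j)) * h i = if i = j then (p : ℂ) * h j else 0 := by
      intro i
      rw [← Finset.sum_mul, AddChar.sum_mulShift _ sc_prim]
      by_cases hij : i = j
      · subst hij; simp [ZMod.card]
      · rw [if_neg (sub_ne_zero.mpr hij), if_neg hij]; simp
    rw [Finset.sum_congr rfl (fun i _ => e2 i)]
    simp
  rw [Finset.sum_eq_zero (fun r _ => by rw [H r, mul_zero])] at h1
  have hpC : (p : ℂ) ≠ 0 := by exact_mod_cast hp.ne_zero
  exact (mul_eq_zero.mp h1.symm).resolve_left hpC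

section data

variable (m : ℕ) (hm : p = 2 * m + 1)
include hm

lemma eval_sc (F : ℂ[X]) (hF : F.natDegree ≤ 2 * m) (r : ZMod p) :
    F.eval (sc p r) = ∑ x : ZMod p, sc p (r * x) * F.coeff x.val := by
  rw [eval_eq_sum_range' (n := 2 * m + 1) (by omega),
    ← sum_range_eq (2 * m + 1) hm (fun x => sc p (r * x) * F.coeff x.val)]
  apply Finset.sum_congr rfl
  intro j hj
  rw [Finset.mem_range] at hj
  rw [ZMod.val_natCast_of_lt (by omega), sc_natpow]
  ring

lemma act_eq (κ : ZMod p → ℂ) (F : ℂ[X]) (i : ℕ) :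
    act κ m F i = ∑ x : ZMod p, κ ((i : ZMod p) - x) * F.coeff x.val := by
  rw [act, ← sum_range_eq (2 * m + 1) hm (fun x => κ ((i : ZMod p) - x) * F.coeff x.val)]
  apply Finset.sum_congr rfl
  intro j hj
  rw [Finset.mem_range] at hj
  rw [ZMod.val_natCast_of_lt (by omega)]

/-- eigenfunctions of a convolution -/
lemma act_eig (κ : ZMod p → ℂ) (γ : ℂ) (F : ℂ[X]) (hF : F.natDegree ≤ 2 * m)
    (h : ∀ r : ZMod p, (∑ u, κ u * sc p (r * u)) * F.eval (sc p r) = γ * F.eval (sc p r)) (i : ℕ)
    (hi : i ≤ 2 * m) : act κ m F i = γ * F.coeff i := by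
  rw [act_eq m hm]
  have h1 := ft_inj (fun y => ∑ x : ZMod p, κ (y - x) * F.coeff x.val - γ * F.coeff y.val) (by
    intro r
    have e1 : ∑ y, sc p (r * y) * (∑ x : ZMod p, κ (y - x) * F.coeff x.val - γ * F.coeff y.val) =
        (∑ u, κ u * sc p (r * u)) * F.eval (sc p r) - γ * F.eval (sc p r) := by
      rw [eval_sc m hm F hF r]
      simp only [mul_sub, Finset.sum_sub_distrib]
      congr 1
      · simp only [Finset.mul_sum]
        rw [Finset.sum_comm]
        apply Finset.sum_congr rfl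
        intro x _
        rw [← Equiv.sum_comp (Equiv.addRight x), Finset.sum_mul]
        apply Finset.sum_congr rfl
        intro u _
        simp only [Equiv.coe_addRight, add_sub_cancel_right]
        rw [mul_add, AddChar.map_add_eq_mul]
        ring
      · rw [Finset.mul_sum]
        apply Finset.sum_congr rfl
        intro x _
        ring
    rw [e1, h r, sub_self]) (i : ZMod p)
  rw [ZMod.val_natCast_of_lt (by omega)] at h1
  linear_combination h1

end data

/-- the transform of `χ + t` -/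
lemma kap (hp2 : p ≠ 2) (t : ℂ) (r : ZMod p) :
    ∑ u : ZMod p, (chi p ℂ u + t) * sc p (r * u) =
      chi p ℂ r * gaussSum (chi p ℂ) (sc p) + t * (if r = 0 then (p : ℂ) else 0) := by
  simp only [add_mul, Finset.sum_add_distrib]
  rw [gshift hp2 two_ne_zero (sc p) r, ← Finset.mul_sum]
  congr 2
  have : ∑ u : ZMod p, sc p (r * u) = ∑ u : ZMod p, sc p (u * r) :=
    Finset.sum_congr rfl fun u _ => by rw [mul_comm]
  rw [this, AddChar.sum_mulShift _ sc_prim, ZMod.card]
  push_cast
  rfl

/-- the sign `ε` with its half of the residue classes -/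
noncomputable def Hf (p : ℕ) [Fact p.Prime] (e : ℤ) : Finset (ZMod p) :=
  univ.filter (fun j : ZMod p => quadraticChar (ZMod p) j = e)

lemma mem_Hf {e : ℤ} {r : ZMod p} : r ∈ Hf p e ↔ quadraticChar (ZMod p) r = e := by
  simp [Hf]

lemma Hf_ne {e : ℤ} (he : e = 1 ∨ e = -1) {r : ZMod p} (hr : r ∈ Hf p e) : r ≠ 0 := by
  rintro rfl
  rw [mem_Hf, MulChar.map_zero] at hr
  rcases he with h | h <;> rw [h] at hr <;> norm_num at hr

lemma sum_split {M : Type*} [AddCommMonoid M] (f : ZMod p → M) :
    ∑ x, f x = f 0 + (∑ x ∈ Hf p 1, f x + ∑ x ∈ Hf p (-1), f x) := by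
  rw [← Finset.add_sum_erase univ f (Finset.mem_univ 0)]
  congr 1
  have e : univ.erase (0 : ZMod p) = Hf p 1 ∪ Hf p (-1) := erase_eq
  have hd : Disjoint (Hf p 1) (Hf p (-1)) := disj
  rw [e, Finset.sum_union hd]

lemma card_Hf (m : ℕ) (hm : p = 2 * m + 1) : (Hf p 1).card = m ∧ (Hf p (-1)).card = m := by
  have hp2 : p ≠ 2 := by omega
  have h1 := sum_split (p := p) (fun _ => (1 : ℤ))
  have h2 := sum_split (p := p) (fun x => quadraticChar (ZMod p) x)
  have h3 : ∑ x : ZMod p, quadraticChar (ZMod p) x = 0 :=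
    quadraticChar_sum_zero (by rwa [ZMod.ringChar_zmod_n])
  rw [h3, MulChar.map_zero, Finset.sum_congr rfl (fun x (hx : x ∈ Hf p 1) => mem_Hf.mp hx),
    Finset.sum_congr rfl (fun x (hx : x ∈ Hf p (-1)) => mem_Hf.mp hx)] at h2
  simp only [Finset.sum_const, Finset.card_univ, ZMod.card, nsmul_eq_mul, mul_one, mul_neg] at h1 h2
  omega

/-- the two half systems: `e = 1` and `e = -1` -/
theorem half (m : ℕ) (hm : p = 2 * m + 1) (e : ℤ) (he : e = 1 ∨ e = -1) (γ t : ℂ)
    (hγ : γ = e * gaussSum (chi p ℂ) (sc p)) (ht : t * p = γ) :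
    ∃ z : Fin (m + 1) → ℂ, Half p ℂ m (fun u => chi p ℂ u + t) γ (Pol (Hf p (-e)))
      ((X - 1) * Pol (Hf p e)) z ∧
      ∀ f : ℂ → ℂ, ∏ l, f (z l) = f 1 * ∏ r ∈ Hf p e, f (sc p r) := by
  have hp2 : p ≠ 2 := by omega
  obtain ⟨c1, c2⟩ := card_Hf m hm
  have hce : (Hf p e).card = m := by rcases he with h | h <;> rw [h] <;> assumption
  have hcm : (Hf p (-e)).card = m := by
    rcases he with h | h
    · rw [h]; exact c2
    · rw [h, neg_neg]; exact c1
  have h0 : (0 : ZMod p) ∉ Hf p e := fun h => Hf_ne he h rfl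
  have hcard : (insert 0 (Hf p e)).card = m + 1 := by rw [Finset.card_insert_of_notMem h0, hce]
  set E := (insert 0 (Hf p e)).equivFinOfCardEq hcard with hE
  have hprod : ∀ f : ℂ → ℂ, ∏ l, f (sc p (E.symm l : ZMod p)) = f 1 * ∏ r ∈ Hf p e, f (sc p r) := by
    intro f
    rw [Equiv.prod_comp E.symm (fun r : {x // x ∈ insert 0 (Hf p e)} => f (sc p (r : ZMod p))),
      Finset.prod_coe_sort (insert 0 (Hf p e)) (fun r => f (sc p r)), Finset.prod_insert h0]
    simp
  refine ⟨fun l => sc p (E.symm l : ZMod p), ?_, hprod⟩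
  refine ⟨Pol_monic _, by rw [Pol_deg, hcm], ?_, ?_, ?_, ?_⟩
  · have : ∏ l, (X - C (sc p (E.symm l : ZMod p))) =
        ∏ r ∈ insert 0 (Hf p e), (X - C (sc p r)) := by
      rw [Equiv.prod_comp E.symm (fun r : {x // x ∈ insert 0 (Hf p e)} => X - C (sc p (r : ZMod p))),
        Finset.prod_coe_sort (insert 0 (Hf p e)) (fun r => X - C (sc p r))]
    rw [this, Finset.prod_insert h0]
    simp [Pol]
  · intro l l' h
    have := sc_inj h
    exact E.symm.injective (Subtype.ext this)
  · rintro F hF ⟨G, rfl⟩ i hi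
    apply act_eig m hm _ γ _ hF _ i hi
    intro r
    rw [kap hp2]
    by_cases hr0 : r = 0
    · subst hr0
      rw [if_pos rfl, MulChar.map_zero, ← ht]; ring
    · rw [if_neg hr0]
      rcases quadraticChar_dichotomy hr0 with h | h
      · rcases he with he | he
        · rw [chi_apply, h, hγ, he]; ring
        · have : r ∈ Hf p (-e) := by rw [mem_Hf, h, he]; norm_num
          rw [eval_mul, Pol_root this]; ring
      · rcases he with he | he
        · have : r ∈ Hf p (-e) := by rw [mem_Hf, h, he]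
          rw [eval_mul, Pol_root this]; ring
        · rw [chi_apply, h, hγ, he]; ring
  · rintro F hF ⟨G, rfl⟩ i hi
    apply act_eig m hm _ (-γ) _ hF _ i hi
    intro r
    rw [kap hp2]
    by_cases hr0 : r = 0
    · subst hr0
      simp
    · rw [if_neg hr0]
      rcases quadraticChar_dichotomy hr0 with h | h
      · rcases he with he | he
        · have : r ∈ Hf p e := by rw [mem_Hf, h, he]
          rw [eval_mul, eval_mul, Pol_root this]; ring
        · rw [chi_apply, h, hγ, he]; ring
      · rcases he with he | he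
        · rw [chi_apply, h, hγ, he]; ring
        · have : r ∈ Hf p e := by rw [mem_Hf, h, he]
          rw [eval_mul, eval_mul, Pol_root this]; ring

end Pool.Agent.K6.H19.LG
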