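import Mathlib
import Pool.Agent.K6.H19.LG.B

/-! Coefficients and products for the two half systems. -/

set_option autoImplicit false
set_option linter.unusedSectionVars false

namespace Pool.Agent.K6.H19.LG

open Finset Polynomial Matrix Pool.Agent.Helper184.Chapman Pool.Agent.R945.TP

/-- the sign of the order reversing permutation -/
lemma sign_rev (n : ℕ) : (Equiv.Perm.sign (Fin.revPerm : Equiv.Perm (Fin (n + 1)))) = (-1 : ℤˣ) ^ (n * (n + 1) / 2) := by
  induction n with
  | zero =>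
    have : (Fin.revPerm : Equiv.Perm (Fin (0 + 1))) = 1 := by
      ext i; simp
    rw [this]; simp
  | succ n ih =>
    have h : (finRotate (n + 2)) * (Fin.revPerm : Equiv.Perm (Fin (n + 2))) =
        Equiv.Perm.decomposeFin.symm (0, (Fin.revPerm : Equiv.Perm (Fin (n + 1)))) := by
      ext i
      refine Fin.cases ?_ (fun j => ?_) i
      · rw [Equiv.Perm.decomposeFin_symm_apply_zero, Equiv.Perm.mul_apply, Fin.revPerm_apply, Fin.rev_zero,
          finRotate_last]
      · rw [Equiv.Perm.decomposeFin_symm_apply_succ, Equiv.Perm.mul_apply, Fin.revPerm_apply, Fin.revPerm_apply,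
          Equiv.swap_self, Equiv.refl_apply]
        have hj : (Fin.rev j.succ : Fin (n + 2)) = (Fin.rev j).castSucc := by
          ext; simp
        rw [hj, finRotate_apply]
        rw [Fin.coeSucc_eq_succ]
    have h2 := congrArg Equiv.Perm.sign h
    rw [Equiv.Perm.sign_mul, Equiv.Perm.decomposeFin.symm_sign, if_pos rfl, one_mul, ih, sign_finRotate,
      show n + 2 - 1 = n + 1 from rfl] at h2
    have h3 : ((-1 : ℤˣ) ^ (n + 1)) * ((-1 : ℤˣ) ^ (n + 1)) = 1 := by
      rw [← mul_pow]; simp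
    have h4 : (n + 1) * (n + 1 + 1) / 2 = (n + 1) + n * (n + 1) / 2 := by
      have : (n + 1) * (n + 1 + 1) = n * (n + 1) + 2 * (n + 1) := by ring
      rw [this, Nat.add_mul_div_left _ _ (by norm_num)]
      omega
    rw [h4, pow_add, ← h2, ← mul_assoc, h3, one_mul]

variable {p : ℕ} [Fact p.Prime]

lemma Pol_zero (s : Finset (ZMod p)) : (Pol s).coeff 0 = (-1) ^ s.card * sc p (∑ r ∈ s, r) := by
  rw [coeff_zero_eq_eval_zero, Pol, eval_prod]
  simp only [eval_sub, eval_X, eval_C, zero_sub]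
  induction s using Finset.induction_on with
  | empty => simp
  | insert a s ha ih =>
    rw [Finset.prod_insert ha, ih, Finset.card_insert_of_notMem ha, Finset.sum_insert ha,
      AddChar.map_add_eq_mul]
    ring

lemma Pol_one (s : Finset (ZMod p)) :
    (Pol s).coeff 1 = - (Pol s).coeff 0 * ∑ r ∈ s, sc p (-r) := by
  induction s using Finset.induction_on with
  | empty => simp [Pol, coeff_one]
  | insert a s ha ih =>
    have e : Pol (insert a s) = X * Pol s - C (sc p a) * Pol s := by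
      rw [Pol, Finset.prod_insert ha]; unfold Pol; ring
    rw [e, Finset.sum_insert ha]
    simp only [coeff_sub, coeff_C_mul]
    rw [coeff_X_mul_zero, show (1 : ℕ) = 0 + 1 from rfl, coeff_X_mul]
    rw [show (0 + 1 : ℕ) = 1 from rfl, ih]
    have h : sc p a * sc p (-a) = 1 := by rw [← AddChar.map_add_eq_mul]; simp
    linear_combination (-(Pol s).coeff 0) * h

lemma Pol_dvd (m : ℕ) (hm : p = 2 * m + 1) (s : Finset (ZMod p)) : Pol s ∣ X ^ (2 * m + 1) - 1 := by
  rw [Pol]
  apply Finset.prod_dvd_of_coprime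
  · intro a _ b _ hab
    exact isCoprime_X_sub_C_of_isUnit_sub (by
      apply IsUnit.mk0
      rw [sub_ne_zero]
      exact fun h => hab (sc_inj h))
  · intro r _
    rw [dvd_iff_isRoot, IsRoot, eval_sub, eval_pow, eval_X, eval_one, sc_natpow, ← hm]
    simp

lemma XPol_dvd (m : ℕ) (hm : p = 2 * m + 1) (s : Finset (ZMod p)) (hs : (0 : ZMod p) ∉ s) :
    (X - 1) * Pol s ∣ X ^ (2 * m + 1) - 1 := by
  have h := Pol_dvd m hm (insert 0 s)
  rw [Pol, Finset.prod_insert hs] at h
  simpa [Pol] using h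

lemma sum_Hf (hp3 : 3 < p) (e : ℤ) : ∑ r ∈ Hf p e, r = 0 := by
  have hp : p.Prime := Fact.out
  have hp2 : p ≠ 2 := by omega
  have h2 : (2 : ZMod p) ≠ 0 := two_ne' hp2
  have h4 : (4 : ZMod p) ≠ 0 := by
    intro h; apply h2
    have : (2 : ZMod p) * 2 = 0 := by rw [← h]; norm_num
    exact (mul_self_eq_zero).mp this
  have q4 : quadraticChar (ZMod p) 4 = 1 := by
    have := quadraticChar_sq_one (F := ZMod p) h2
    rw [sq, ← map_mul] at this
    rw [← this]; norm_num
  have h : ∑ r ∈ Hf p e, 4 * r = ∑ r ∈ Hf p e, r := by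
    apply Finset.sum_bij (fun k _ => 4 * k)
    · intro k hk
      rw [mem_Hf] at hk ⊢
      rw [map_mul, q4, hk, one_mul]
    · intro k _ l _ h; exact mul_left_cancel₀ h4 h
    · intro k hk
      rw [mem_Hf] at hk
      refine ⟨4⁻¹ * k, ?_, ?_⟩
      · rw [mem_Hf]
        have h5 : quadraticChar (ZMod p) (4 * (4⁻¹ * k)) = quadraticChar (ZMod p) 4 * quadraticChar (ZMod p) (4⁻¹ * k) :=
          map_mul _ _ _
        rw [← mul_assoc, mul_inv_cancel₀ h4, one_mul, hk, q4, one_mul] at h5
        exact h5.symm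
      · rw [← mul_assoc, mul_inv_cancel₀ h4, one_mul]
    · intro k _; rfl
  rw [← Finset.mul_sum] at h
  have h3 : (3 : ZMod p) ≠ 0 := by
    intro h
    have : ((3 : ℕ) : ZMod p) = 0 := by exact_mod_cast h
    rw [ZMod.natCast_eq_zero_iff] at this
    have := Nat.le_of_dvd (by norm_num) this
    omega
  have : (3 : ZMod p) * ∑ r ∈ Hf p e, r = 0 := by linear_combination h
  exact (mul_eq_zero.mp this).resolve_left h3

/-- `S_e - S_{-e}` -/
lemma sum_diff (hp2 : p ≠ 2) (e : ℤ) (he : e = 1 ∨ e = -1) :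
    ∑ r ∈ Hf p e, sc p (-r) - ∑ r ∈ Hf p (-e), sc p (-r) = e * (et p ℂ * gaussSum (chi p ℂ) (sc p)) := by
  have h := gshift (K := ℂ) hp2 two_ne_zero (sc p) (-1)
  rw [sum_split, MulChar.map_zero, zero_mul, zero_add] at h
  have e1 : ∑ x ∈ Hf p 1, chi p ℂ x * sc p (-1 * x) = ∑ r ∈ Hf p 1, sc p (-r) := by
    apply Finset.sum_congr rfl
    intro r hr
    rw [chi_apply, mem_Hf.mp hr]; simp
  have e2 : ∑ x ∈ Hf p (-1), chi p ℂ x * sc p (-1 * x) = - ∑ r ∈ Hf p (-1), sc p (-r) := by
    rw [← Finset.sum_neg_distrib]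
    apply Finset.sum_congr rfl
    intro r hr
    rw [chi_apply, mem_Hf.mp hr]; simp
  rw [e1, e2, ← et] at h
  rcases he with rfl | rfl
  · rw [← h]; push_cast; ring
  · rw [← h, neg_neg]; push_cast; ring

/-- `π_e` -/
noncomputable def pie (p : ℕ) [Fact p.Prime] (e : ℤ) : ℂ := ∏ r ∈ Hf p e, (1 - sc p r)

lemma pie_eval (e : ℤ) : (Pol (Hf p e)).eval 1 = pie p e := by
  rw [Pol, eval_prod, pie]; simp

lemma pie_ne {e : ℤ} (he : e = 1 ∨ e = -1) : pie p e ≠ 0 := by
  rw [pie, Finset.prod_ne_zero_iff]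
  intro r hr h
  have := Hf_ne he hr
  exact this ((sc_prim.zmod_char_eq_one_iff p r).mp (sub_eq_zero.mp h).symm)

/-- scaling a half system -/
lemma prod_scale (e c : ℤ) (hc : c = 1 ∨ c = -1) {u : ZMod p} (hu : quadraticChar (ZMod p) u = c) (f : ZMod p → ℂ) :
    ∏ r ∈ Hf p e, f (r * u) = ∏ r ∈ Hf p (e * c), f r := by
  have hu0 : u ≠ 0 := by
    rintro rfl
    rw [MulChar.map_zero] at hu
    rcases hc with h | h <;> rw [h] at hu <;> norm_num at hu
  have hcc : c * c = 1 := by rcases hc with h | h <;> rw [h] <;> norm_num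
  have hui : quadraticChar (ZMod p) u⁻¹ = c := by
    have : quadraticChar (ZMod p) (u * u⁻¹) = quadraticChar (ZMod p) u * quadraticChar (ZMod p) u⁻¹ := map_mul _ _ _
    rw [mul_inv_cancel₀ hu0, map_one, hu] at this
    linear_combination (-(quadraticChar (ZMod p) u⁻¹)) * hcc - c * this
  apply Finset.prod_bij (fun k _ => k * u)
  · intro k hk
    rw [mem_Hf] at hk ⊢
    rw [map_mul, hk, hu]
  · intro k _ l _ h; exact mul_right_cancel₀ hu0 h
  · intro k hk
    rw [mem_Hf] at hk
    refine ⟨k * u⁻¹, ?_, ?_⟩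
    · rw [mem_Hf, map_mul, hk, hui, mul_assoc, hcc, mul_one]
    · rw [mul_assoc, inv_mul_cancel₀ hu0, mul_one]
  · intro k _; rfl

/-- the two kinds of nonresidues -/
noncomputable def kk (p : ℕ) [Fact p.Prime] (c : ℤ) : ℕ :=
  ((Hf p (-1)).filter (fun u => quadraticChar (ZMod p) (u - 1) = c)).card

lemma kk_eq (m : ℕ) (hm : p = 2 * m + 1) :
    kk p 1 + kk p (-1) = m ∧ 2 * ((kk p 1 : ℤ) - kk p (-1)) = 1 - quadraticChar (ZMod p) (-1) := by
  have hp2 : p ≠ 2 := by omega
  obtain ⟨-, c2⟩ := card_Hf m hm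
  have hdich : ∀ u ∈ Hf p (-1), quadraticChar (ZMod p) (u - 1) = 1 ∨ quadraticChar (ZMod p) (u - 1) = -1 := by
    intro u hu
    apply quadraticChar_dichotomy
    intro h
    have : u = 1 := sub_eq_zero.mp h
    rw [mem_Hf, this, map_one] at hu
    norm_num at hu
  have hd : ∀ u ∈ Hf p (-1), quadraticChar (ZMod p) (u - 1) =
      (if quadraticChar (ZMod p) (u - 1) = 1 then (1 : ℤ) else 0) -
      (if quadraticChar (ZMod p) (u - 1) = -1 then (1 : ℤ) else 0) := by
    intro u hu
    rcases hdich u hu with h | h <;> rw [h] <;> norm_num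
  have hd1 : ∀ u ∈ Hf p (-1), (1 : ℤ) =
      (if quadraticChar (ZMod p) (u - 1) = 1 then (1 : ℤ) else 0) +
      (if quadraticChar (ZMod p) (u - 1) = -1 then (1 : ℤ) else 0) := by
    intro u hu
    rcases hdich u hu with h | h <;> rw [h] <;> norm_num
  have k1 : ((kk p 1 : ℕ) : ℤ) = ∑ u ∈ Hf p (-1), (if quadraticChar (ZMod p) (u - 1) = 1 then (1 : ℤ) else 0) := by
    rw [kk, Finset.card_filter]; push_cast; rfl
  have k2 : ((kk p (-1) : ℕ) : ℤ) = ∑ u ∈ Hf p (-1), (if quadraticChar (ZMod p) (u - 1) = -1 then (1 : ℤ) else 0) := by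
    rw [kk, Finset.card_filter]; push_cast; rfl
  have s1 : (m : ℤ) = kk p 1 + kk p (-1) := by
    rw [k1, k2, ← Finset.sum_add_distrib, ← Finset.sum_congr rfl hd1]
    simp [c2]
  have s2 : ∑ u ∈ Hf p (-1), quadraticChar (ZMod p) (u - 1) = kk p 1 - kk p (-1) := by
    rw [k1, k2, ← Finset.sum_sub_distrib]
    exact Finset.sum_congr rfl hd
  have t1 : ∑ u : ZMod p, quadraticChar (ZMod p) (u - 1) = 0 := by
    have := Equiv.sum_comp (Equiv.subRight (1 : ZMod p)) (fun u => quadraticChar (ZMod p) u)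
    simp only [Equiv.subRight_apply] at this
    rw [this]
    exact quadraticChar_sum_zero (by rwa [ZMod.ringChar_zmod_n])
  have t2 : ∑ u : ZMod p, quadraticChar (ZMod p) u * quadraticChar (ZMod p) (u + (-1)) =
      (if (-1 : ZMod p) = 0 then (p : ℤ) else 0) - 1 := Pool.Agent.R945.LD.q_corr hp2 (-1)
  rw [if_neg (by simp)] at t2
  rw [sum_split] at t1 t2
  have u1 : ∑ u ∈ Hf p 1, quadraticChar (ZMod p) u * quadraticChar (ZMod p) (u + (-1)) =
      ∑ u ∈ Hf p 1, quadraticChar (ZMod p) (u - 1) := by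
    apply Finset.sum_congr rfl
    intro u hu
    rw [mem_Hf.mp hu, one_mul, sub_eq_add_neg]
  have u2 : ∑ u ∈ Hf p (-1), quadraticChar (ZMod p) u * quadraticChar (ZMod p) (u + (-1)) =
      - ∑ u ∈ Hf p (-1), quadraticChar (ZMod p) (u - 1) := by
    rw [← Finset.sum_neg_distrib]
    apply Finset.sum_congr rfl
    intro u hu
    rw [mem_Hf.mp hu, sub_eq_add_neg]; ring
  rw [u1, u2, MulChar.map_zero, zero_mul, zero_add] at t2
  rw [zero_sub] at t1
  rw [s2] at t1 t2
  refine ⟨by omega, ?_⟩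
  linear_combination t1 - t2

/-- the product of all `1 - ζ^r` -/
lemma pie_mul (m : ℕ) (hm : p = 2 * m + 1) (e : ℤ) (he : e = 1 ∨ e = -1) : pie p e * pie p (-e) = p := by
  have hp2 : p ≠ 2 := by omega
  have key : pie p 1 * pie p (-1) = p := by
    have e0 : pie p 1 * pie p (-1) = ∏ k ∈ univ.erase (0 : ZMod p), (1 - sc p k) := by
      have e : univ.erase (0 : ZMod p) = Hf p 1 ∪ Hf p (-1) := erase_eq
      have hd : Disjoint (Hf p 1) (Hf p (-1)) := disj
      rw [e, Finset.prod_union hd, pie, pie]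
    rw [e0]
    have h4 : ∏ k ∈ univ.erase (0 : ZMod p), (1 - sc p k) =
        ∏ i ∈ Finset.range (p - 1), (1 - (sc p 1) ^ (i + 1)) := by
      symm
      apply Finset.prod_bij (fun (i : ℕ) _ => ((i + 1 : ℕ) : ZMod p))
      · intro i hi
        rw [Finset.mem_range] at hi
        simp only [Finset.mem_erase, Finset.mem_univ, and_true]
        intro h
        rw [ZMod.natCast_eq_zero_iff] at h
        have := Nat.le_of_dvd (by omega) h
        omega
      · intro a ha b hb hab
        rw [Finset.mem_range] at ha hb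
        have := congrArg ZMod.val hab
        rw [ZMod.val_natCast_of_lt (by omega), ZMod.val_natCast_of_lt (by omega)] at this
        omega
      · intro b hb
        simp only [Finset.mem_erase, Finset.mem_univ, and_true] at hb
        have h5 : b.val ≠ 0 := by rwa [Ne, ZMod.val_eq_zero]
        have h6 := ZMod.val_lt b
        refine ⟨b.val - 1, ?_, ?_⟩
        · rw [Finset.mem_range]; omega
        · rw [show b.val - 1 + 1 = b.val by omega, ZMod.natCast_zmod_val]
      · intro i _
        rw [← AddChar.map_nsmul_eq_pow, nsmul_eq_mul, mul_one]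
    rw [h4]
    have hprim : IsPrimitiveRoot (sc p 1) p := by
      rw [IsPrimitiveRoot.iff_def]
      constructor
      · rw [← AddChar.map_nsmul_eq_pow, nsmul_eq_mul, ZMod.natCast_self, zero_mul,
          AddChar.map_zero_eq_one]
      · intro l hl
        rw [← AddChar.map_nsmul_eq_pow, nsmul_eq_mul, mul_one] at hl
        have := (sc_prim.zmod_char_eq_one_iff p _).mp hl
        rwa [ZMod.natCast_eq_zero_iff] at this
    have h5 := IsPrimitiveRoot.prod_one_sub_pow_eq_order (R := ℂ) (n := 2 * m) (μ := sc p 1)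
      (by rw [← hm]; exact hprim)
    rw [show p - 1 = 2 * m by omega, h5]
    rw [hm]; push_cast; ring
  rcases he with rfl | rfl
  · exact key
  · rw [neg_neg, mul_comm]; exact key

/-- the resultant of the two half polynomials -/
lemma prod_cross (m : ℕ) (hm : p = 2 * m + 1) (hp3 : 3 < p) (e : ℤ) (he : e = 1 ∨ e = -1) :
    ∏ r ∈ Hf p e, (Pol (Hf p (-e))).eval (sc p r) = pie p e ^ (kk p 1) * pie p (-e) ^ (kk p (-1)) := by
  obtain ⟨c1, c2⟩ := card_Hf m hm
  have e1 : ∀ r ∈ Hf p e, (Pol (Hf p (-e))).eval (sc p r) =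
      sc p (m * r) * ∏ u ∈ Hf p (-1), (1 - sc p (r * (u - 1))) := by
    intro r hr
    have hr' := mem_Hf.mp hr
    rw [Pol, eval_prod]
    simp only [eval_sub, eval_X, eval_C]
    have h := prod_scale (p := p) (-1) e he hr' (fun s => sc p r - sc p s)
    rw [show (-1 : ℤ) * e = -e by ring] at h
    rw [← h]
    have e2 : ∀ u ∈ Hf p (-1), sc p r - sc p (u * r) = sc p r * (1 - sc p (r * (u - 1))) := by
      intro u _
      rw [mul_sub, mul_one, ← AddChar.map_add_eq_mul]
      congr 2
      ring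
    rw [Finset.prod_congr rfl e2, Finset.prod_mul_distrib, Finset.prod_const, c2, sc_natpow]
    congr 2
    ring
  rw [Finset.prod_congr rfl e1, Finset.prod_mul_distrib]
  have e3 : ∏ r ∈ Hf p e, sc p (m * r) = 1 := by
    have h1 : ∏ r ∈ Hf p e, sc p (m * r) = sc p (∑ r ∈ Hf p e, m * r) := by
      generalize Hf p e = s
      induction s using Finset.induction_on with
      | empty => simp
      | insert a s ha ih =>
        rw [Finset.prod_insert ha, Finset.sum_insert ha, AddChar.map_add_eq_mul, ih]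
    rw [h1, ← Finset.mul_sum, sum_Hf hp3, mul_zero, AddChar.map_zero_eq_one]
  rw [e3, one_mul, Finset.prod_comm]
  have e4 : ∀ u ∈ Hf p (-1), ∏ r ∈ Hf p e, (1 - sc p (r * (u - 1))) =
      (if quadraticChar (ZMod p) (u - 1) = 1 then pie p e else 1) *
      (if quadraticChar (ZMod p) (u - 1) = -1 then pie p (-e) else 1) := by
    intro u hu
    have hd : quadraticChar (ZMod p) (u - 1) = 1 ∨ quadraticChar (ZMod p) (u - 1) = -1 := by
      apply quadraticChar_dichotomy
      intro h
      have : u = 1 := sub_eq_zero.mp h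
      rw [mem_Hf, this, map_one] at hu
      norm_num at hu
    rw [prod_scale e _ hd rfl (fun r => 1 - sc p r)]
    rcases hd with h | h
    · rw [h, if_pos rfl, if_neg (by norm_num), mul_one, mul_one]; rfl
    · rw [h, if_neg (by norm_num), if_pos rfl, one_mul, mul_neg, mul_one]; rfl
  rw [Finset.prod_congr rfl e4, Finset.prod_mul_distrib, ← Finset.prod_filter, ← Finset.prod_filter,
    Finset.prod_const, Finset.prod_const, kk, kk]

end Pool.Agent.K6.H19.LG
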