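import Mathlib
import Pool.Agent.K6.H19.LG.C
import Pool.Agent.R945.TP.Q1

/-! Hankel determinants of Legendre symbols. -/

set_option autoImplicit false
set_option linter.unusedSectionVars false

namespace Pool.Agent.K6.H19.LG

open Finset Polynomial Matrix Pool.Agent.Helper184.Chapman Pool.Agent.R945.TP

variable {p : ℕ} [Fact p.Prime]

/-- Hankel matrices -/
noncomputable def HM (p : ℕ) [Fact p.Prime] (n : ℕ) (t : ℂ) : Matrix (Fin n) (Fin n) ℂ :=
  Matrix.of fun i j => chi p ℂ (((i : ℕ) : ZMod p) + ((j : ℕ) : ZMod p)) + t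

/-- removing the last row and the last column -/
lemma minor_castSucc {n : ℕ} (H : Matrix (Fin (n + 1)) (Fin (n + 1)) ℂ) (q : Fin (n + 1) → ℂ)
    (hq : H.mulVec q = Pi.single (Fin.last n) 1) :
    (H.submatrix Fin.castSucc Fin.castSucc).det = H.det * q (Fin.last n) := by
  set B := H.submatrix Fin.revPerm Fin.revPerm with hB
  have h1 : B.det = H.det := det_submatrix_equiv_self _ _
  have h2 : B.mulVec (q ∘ Fin.revPerm) = Pi.single 0 1 := by
    rw [hB]
    funext i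
    have h3 := congrFun hq (Fin.revPerm i)
    simp only [Matrix.mulVec, dotProduct] at h3 ⊢
    have h4 : ∑ x, H.submatrix Fin.revPerm Fin.revPerm i x * (q ∘ Fin.revPerm) x = ∑ x, H (Fin.revPerm i) x * q x :=
      Equiv.sum_comp Fin.revPerm (fun x => H (Fin.revPerm i) x * q x)
    rw [h4, h3]
    by_cases hi : i = 0
    · subst hi; simp
    · rw [Pi.single_eq_of_ne hi, Pi.single_eq_of_ne]
      intro h
      apply hi
      rw [Fin.revPerm_apply] at h
      have := congrArg Fin.rev h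
      rw [Fin.rev_rev, Fin.rev_last] at this
      exact this
  have h3 := minor_zero B _ h2
  have h4 : B.submatrix Fin.succ Fin.succ =
      (H.submatrix Fin.castSucc Fin.castSucc).submatrix Fin.revPerm Fin.revPerm := by
    ext i j
    simp [hB, Fin.rev_succ]
  rw [h4, det_submatrix_equiv_self, h1] at h3
  rw [h3]
  simp

/-- the two determinants at the distinguished points -/
theorem dets (m : ℕ) (hm : p = 2 * m + 1) (hp3 : 3 < p) (e : ℤ) (he : e = 1 ∨ e = -1) (γ t : ℂ)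
    (hγ : γ = e * gaussSum (chi p ℂ) (sc p)) (ht : t * p = γ) :
    (HM p (m + 1) t).det * (pie p (-e) * (pie p e ^ (kk p 1) * pie p (-e) ^ (kk p (-1)))) =
      (-1) ^ (m * (m + 1) / 2) * (2 ^ m * γ ^ (m + 1)) ∧
    (HM p m t).det = (HM p (m + 1) t).det * ((2 + et p ℂ * γ) / (2 * γ)) := by
  have hp : p.Prime := Fact.out
  have hp2 : p ≠ 2 := by omega
  have hm0 : 0 < m := by omega
  obtain ⟨c1, c2⟩ := card_Hf m hm
  have hpC : (p : ℂ) ≠ 0 := by exact_mod_cast hp.ne_zero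
  have hes := et_sq (p := p) (K := ℂ)
  have hee : (e : ℂ) * e = 1 := by rcases he with h | h <;> rw [h] <;> norm_num
  have hg2 : γ * γ = et p ℂ * p := by
    have := gsq (K := ℂ) hp2 two_ne_zero (sc p) sc_prim
    rw [hγ]
    linear_combination (e : ℂ) * e * this + et p ℂ * p * hee
  have hγ0 : γ ≠ 0 := by
    intro h
    rw [h, mul_zero] at hg2
    rcases mul_eq_zero.mp hg2.symm with h | h
    · rw [h, mul_zero] at hes; exact zero_ne_one hes
    · exact hpC h
  obtain ⟨z, D, hz⟩ := half m hm e he γ t hγ ht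
  have hce : (Hf p e).card = m := by rcases he with h | h <;> rw [h] <;> assumption
  have hcm : (Hf p (-e)).card = m := by
    rcases he with h | h
    · rw [h]; exact c2
    · rw [h, neg_neg]; exact c1
  set A : Matrix (Fin (m + 1)) (Fin (m + 1)) ℂ :=
    Matrix.of fun i j => chi p ℂ ((m : ZMod p) + ((i : ℕ) : ZMod p) - ((j : ℕ) : ZMod p)) + t with hA
  have hHA : HM p (m + 1) t = A.submatrix id Fin.revPerm := by
    ext i j
    simp only [HM, hA, Matrix.of_apply, Matrix.submatrix_apply, id, Fin.revPerm_apply, Fin.val_rev]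
    congr 2
    have hj := j.2
    rw [show m + 1 - ((j : ℕ) + 1) = m - j by omega, Nat.cast_sub (by omega)]
    ring
  have hdet : (HM p (m + 1) t).det = (-1) ^ (m * (m + 1) / 2) * A.det := by
    rw [hHA, Matrix.det_permute', sign_rev]
    push_cast
    rfl
  have hAdet := D.det A (fun i j => rfl)
  rw [hz (fun x => (Pol (Hf p (-e))).eval x)] at hAdet
  rw [pie_eval, prod_cross m hm hp3 e he] at hAdet
  refine ⟨by rw [hdet, mul_assoc, hAdet], ?_⟩
  obtain ⟨q, hq, hq0⟩ := D.solve hm0 two_ne_zero hγ0 (Pol_dvd m hm _)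
    (XPol_dvd m hm _ (fun h => Hf_ne he h rfl)) A (fun i j => rfl)
  have hq' : (HM p (m + 1) t).mulVec (q ∘ Fin.revPerm) = Pi.single (Fin.last m) 1 := by
    rw [hHA, ← hq]
    funext i
    simp only [Matrix.mulVec, dotProduct]
    exact Equiv.sum_comp Fin.revPerm (fun x => A i x * q x)
  have hmin := minor_castSucc _ _ hq'
  have hsub : (HM p (m + 1) t).submatrix Fin.castSucc Fin.castSucc = HM p m t := by
    ext i j; simp [HM]
  rw [hsub] at hmin
  rw [hmin]
  have hql : (q ∘ Fin.revPerm) (Fin.last m) = q 0 := by simp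
  rw [hql, hq0]
  congr 1
  -- the constants
  have p0 : (Pol (Hf p (-e))).coeff 0 = (-1) ^ m := by
    rw [Pol_zero, sum_Hf hp3, hcm]; simp
  have p0' : (Pol (Hf p e)).coeff 0 = (-1) ^ m := by
    rw [Pol_zero, sum_Hf hp3, hce]; simp
  have p1 : (Pol (Hf p (-e))).coeff 1 = - (-1) ^ m * ∑ r ∈ Hf p (-e), sc p (-r) := by
    rw [Pol_one, p0]
  have p1' : (Pol (Hf p e)).coeff 1 = - (-1) ^ m * ∑ r ∈ Hf p e, sc p (-r) := by
    rw [Pol_one, p0']
  have hM : (X - 1) * Pol (Hf p e) = X * Pol (Hf p e) - Pol (Hf p e) := by ring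
  have m0 : ((X - 1) * Pol (Hf p e)).coeff 0 = - (-1) ^ m := by
    rw [hM, coeff_sub, coeff_X_mul_zero, p0']; ring
  have m1 : ((X - 1) * Pol (Hf p e)).coeff 1 = (-1) ^ m * (1 + ∑ r ∈ Hf p e, sc p (-r)) := by
    rw [hM, coeff_sub, show (1 : ℕ) = 0 + 1 from rfl, coeff_X_mul, show (0 + 1 : ℕ) = 1 from rfl, p1', p0']; ring
  rw [m0, m1, p0, p1]
  have hpm : ((-1 : ℂ) ^ m) ≠ 0 := pow_ne_zero _ (by norm_num)
  have hS := sum_diff hp2 e he
  congr 1
  have hS' : ∑ r ∈ Hf p e, sc p (-r) - ∑ r ∈ Hf p (-e), sc p (-r) = et p ℂ * γ := by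
    rw [hS, hγ]; ring
  rw [← hS']
  field_simp
  ring

/-- the four parameter determinant from the values at one regular point -/
theorem four {k : ℕ} (t : ℂ) (h : (HM p (k + 1) t).det ≠ 0) :
    ∃ σ ρ : ℂ, ∀ x y z w : ℂ,
      (Matrix.of fun i j : Fin (k + 1) => chi p ℂ (((i : ℕ) : ZMod p) + ((j : ℕ) : ZMod p)) + x
        + chi p ℂ ((i : ℕ) : ZMod p) * y + chi p ℂ ((j : ℕ) : ZMod p) * z
        + chi p ℂ ((i : ℕ) : ZMod p) * chi p ℂ ((j : ℕ) : ZMod p) * w).det =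
      (HM p (k + 1) t).det * (x * σ - ρ * (w * x - (y + 1) * (z + 1))) := by
  obtain ⟨c, hc⟩ := exists_solve (HM p (k + 1) t) h (fun _ => 1)
  set σ := ∑ j, c j with hσ
  have hcol : ∀ i : Fin (k + 1), HM p (k + 1) t i 0 = chi p ℂ ((i : ℕ) : ZMod p) + t := by
    intro i; simp [HM]
  have hrow : ∀ j : Fin (k + 1), HM p (k + 1) t 0 j = chi p ℂ ((j : ℕ) : ZMod p) + t := by
    intro i; simp [HM]
  have hρ : ∑ j : Fin (k + 1), chi p ℂ ((j : ℕ) : ZMod p) * c j = 1 - t * σ := by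
    have h2 := congrFun hc 0
    simp only [Matrix.mulVec, dotProduct, hrow] at h2
    rw [← h2, hσ, Finset.mul_sum, ← Finset.sum_sub_distrib]
    exact Finset.sum_congr rfl fun j _ => by ring
  have hd : (HM p (k + 1) t).mulVec (Pi.single 0 1 - t • c) =
      fun i : Fin (k + 1) => chi p ℂ ((i : ℕ) : ZMod p) := by
    rw [Matrix.mulVec_sub, Matrix.mulVec_smul, hc]
    funext i
    simp [hcol]
  have h4 := fun x y z w => det4 (HM p (k + 1) t) c _ _ (fun j : Fin (k + 1) => chi p ℂ ((j : ℕ) : ZMod p)) hc hd (x - t) y z w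
  have hδ : ∑ j : Fin (k + 1), (Pi.single (0 : Fin (k + 1)) (1 : ℂ) - t • c : Fin (k + 1) → ℂ) j = 1 - t * σ := by
    simp only [Pi.sub_apply, Pi.smul_apply, smul_eq_mul, Finset.sum_sub_distrib, ← Finset.mul_sum]
    rw [← hσ]
    simp [Pi.single_apply]
  have hr0 : chi p ℂ (((0 : Fin (k + 1)) : ℕ) : ZMod p) = 0 := by
    simp [chi_apply]
  have hτ : ∑ j : Fin (k + 1), chi p ℂ ((j : ℕ) : ZMod p) * (Pi.single (0 : Fin (k + 1)) (1 : ℂ) - t • c : Fin (k + 1) → ℂ) j
      = - t * (1 - t * σ) := by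
    have e1 : ∀ j : Fin (k + 1), chi p ℂ ((j : ℕ) : ZMod p) * (Pi.single (0 : Fin (k + 1)) (1 : ℂ) - t • c : Fin (k + 1) → ℂ) j
        = chi p ℂ ((j : ℕ) : ZMod p) * (Pi.single (0 : Fin (k + 1)) (1 : ℂ) : Fin (k + 1) → ℂ) j -
          t * (chi p ℂ ((j : ℕ) : ZMod p) * c j) := by
      intro j; simp only [Pi.sub_apply, Pi.smul_apply, smul_eq_mul]; ring
    rw [Finset.sum_congr rfl (fun j _ => e1 j), Finset.sum_sub_distrib, ← Finset.mul_sum, hρ]
    have : ∑ j : Fin (k + 1), chi p ℂ ((j : ℕ) : ZMod p) * (Pi.single (0 : Fin (k + 1)) (1 : ℂ) : Fin (k + 1) → ℂ) j =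
        chi p ℂ (((0 : Fin (k + 1)) : ℕ) : ZMod p) := by
      simp [Pi.single_apply]
    rw [this, hr0]; ring
  refine ⟨σ, 1 - t * σ, fun x y z w => ?_⟩
  have h5 := h4 x y z w
  rw [hρ, hδ, hτ, ← hσ] at h5
  have e : (Matrix.of fun i j : Fin (k + 1) => chi p ℂ (((i : ℕ) : ZMod p) + ((j : ℕ) : ZMod p)) + x
        + chi p ℂ ((i : ℕ) : ZMod p) * y + chi p ℂ ((j : ℕ) : ZMod p) * z
        + chi p ℂ ((i : ℕ) : ZMod p) * chi p ℂ ((j : ℕ) : ZMod p) * w) =
      (Matrix.of fun i j : Fin (k + 1) => HM p (k + 1) t i j + (x - t) + chi p ℂ ((i : ℕ) : ZMod p) * y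
      + chi p ℂ ((j : ℕ) : ZMod p) * z + chi p ℂ ((i : ℕ) : ZMod p) * chi p ℂ ((j : ℕ) : ZMod p) * w) := by
    ext i j
    simp only [Matrix.of_apply, HM]
    ring
  rw [e, h5]
  ring

end Pool.Agent.K6.H19.LG
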