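import Mathlib
import Pool.Agent.K6.H19.LG.D

/-! The four-parameter Hankel determinants of Legendre symbols. -/

set_option autoImplicit false
set_option linter.unusedSectionVars false

namespace Pool.Agent.K6.H19.LG

open Finset Polynomial Matrix Pool.Agent.Helper184.Chapman Pool.Agent.R945.TP NumberField Module

variable {p : ℕ} [Fact p.Prime]

/-- the four parameter matrix -/
noncomputable def F4 (p : ℕ) [Fact p.Prime] (n : ℕ) (x y z w : ℂ) : Matrix (Fin n) (Fin n) ℂ :=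
  Matrix.of fun i j => chi p ℂ (((i : ℕ) : ZMod p) + ((j : ℕ) : ZMod p)) + x
        + chi p ℂ ((i : ℕ) : ZMod p) * y + chi p ℂ ((j : ℕ) : ZMod p) * z
        + chi p ℂ ((i : ℕ) : ZMod p) * chi p ℂ ((j : ℕ) : ZMod p) * w

lemma F4_zero (n : ℕ) (x : ℂ) : F4 p n x 0 0 0 = HM p n x := by
  ext i j; simp [F4, HM]

/-- from the values at the two opposite points -/
theorem two_points (m : ℕ) (hm0 : 0 < m) (t : ℂ) (ht : t ≠ 0) (h : (HM p m t).det ≠ 0) (x y z w : ℂ) :
    (F4 p m x y z w).det = x * (((HM p m t).det - (HM p m (-t)).det) / (2 * t)) -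
      ((HM p m t).det + (HM p m (-t)).det) / 2 * (w * x - (y + 1) * (z + 1)) := by
  obtain ⟨k, rfl⟩ : ∃ k, m = k + 1 := ⟨m - 1, by omega⟩
  obtain ⟨σ, ρ, H⟩ := four t h
  have H' : ∀ x y z w : ℂ, (F4 p (k + 1) x y z w).det =
      (HM p (k + 1) t).det * (x * σ - ρ * (w * x - (y + 1) * (z + 1))) := H
  have h1 := H' t 0 0 0
  have h2 := H' (-t) 0 0 0
  rw [F4_zero] at h1 h2
  rw [H' x y z w]
  set Δ := (HM p (k + 1) t).det with hΔ
  set Δ' := (HM p (k + 1) (-t)).det with hΔ'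
  have e1 : Δ * ρ = (Δ + Δ') / 2 := by linear_combination (-1 / 2) * h1 - (1 / 2) * h2
  have e2 : Δ * σ = (Δ - Δ') / (2 * t) := by
    field_simp
    linear_combination (-1) * h1 + h2
  rw [← e1, ← e2]
  ring

/-- the sign is the value at two -/
lemma chi_two_sign (m : ℕ) (hm : p = 2 * m + 1) : (quadraticChar (ZMod p) 2 : ℤ) = (-1) ^ (m * (m + 1) / 2) := by
  have hp2 : p ≠ 2 := by omega
  rw [quadraticChar_two (by rw [ZMod.ringChar_zmod_n]; exact hp2), ZMod.card, ZMod.χ₈_nat_eq_if_mod_eight,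
    if_neg (by omega)]
  obtain ⟨q, r, hr, hq⟩ : ∃ q r, r < 4 ∧ m = 4 * q + r := ⟨m / 4, m % 4, Nat.mod_lt _ (by norm_num), by omega⟩
  have h8 : p % 8 = (2 * r + 1) % 8 := by omega
  have hmm : m * (m + 1) / 2 = 2 * (4 * q ^ 2 + 2 * q * r + q) + r * (r + 1) / 2 := by
    have : m * (m + 1) = 2 * (2 * (4 * q ^ 2 + 2 * q * r + q)) + r * (r + 1) := by rw [hq]; ring
    rw [this]; omega
  rw [hmm, pow_add, pow_mul]
  interval_cases r
  · rw [if_pos (by omega)]; norm_num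
  · rw [if_neg (by omega)]; norm_num
  · rw [if_neg (by omega)]; norm_num
  · rw [if_pos (by omega)]; norm_num

section three

/-- `p ≡ 3 (mod 4)` -/
theorem three (h3 : p % 4 = 3) (m : ℕ) (hm : p = 2 * m + 1) (hp3 : 3 < p) (x y z w : ℂ) :
    (F4 p m x y z w).det = 2 ^ (m - 1) * (w * x - (y + 1) * (z + 1) - 2 * x) := by
  have hp : p.Prime := Fact.out
  have hp2 : p ≠ 2 := by omega
  have hpC : (p : ℂ) ≠ 0 := by exact_mod_cast hp.ne_zero
  have hm0 : 0 < m := by omega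
  set g := gaussSum (chi p ℂ) (sc p) with hg
  have hq : quadraticChar (ZMod p) (-1) = -1 := by
    rw [quadraticChar_neg_one (by rw [ZMod.ringChar_zmod_n]; exact hp2), ZMod.card,
      ZMod.χ₄_nat_three_mod_four h3]
  have het : et p ℂ = -1 := by rw [et, chi_apply, hq]; simp
  have hg2 : g * g = - p := by
    have := gsq (K := ℂ) hp2 two_ne_zero (sc p) sc_prim
    rw [het] at this
    linear_combination this
  have hg0 : g ≠ 0 := by
    intro h; rw [h, mul_zero] at hg2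
    exact hpC (neg_eq_zero.mp hg2.symm)
  obtain ⟨k1, k2⟩ := kk_eq m hm
  rw [hq] at k2
  have key : ∀ (e : ℤ) (γ : ℂ), (e = 1 ∨ e = -1) → γ = e * g → (HM p (m + 1) (γ / p)).det = 2 ^ m := by
    intro e γ he hγ
    obtain ⟨d, -⟩ := dets m hm hp3 e he γ (γ / p) hγ (by field_simp)
    have hee : (e : ℂ) * e = 1 := by rcases he with h | h <;> rw [h] <;> norm_num
    have hγ2 : γ ^ 2 = - p := by
      rw [hγ]; linear_combination (e : ℂ) * e * hg2 - p * hee
    obtain ⟨k, hk, hk'⟩ : ∃ k, kk p (-1) = k ∧ kk p 1 = k + 1 := ⟨kk p (-1), rfl, by omega⟩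
    have hmk : m + 1 = 2 * (k + 1) := by omega
    have hmk' : m * (m + 1) / 2 = m * (k + 1) := by
      rw [hmk]
      have : m * (2 * (k + 1)) = 2 * (m * (k + 1)) := by ring
      rw [this, Nat.mul_div_cancel_left _ (by norm_num)]
    have hγp : γ ^ (m + 1) = (-(p : ℂ)) ^ (k + 1) := by rw [hmk, pow_mul, hγ2]
    rw [hk, hk', hmk', hγp] at d
    have e1 : pie p (-e) * (pie p e ^ (k + 1) * pie p (-e) ^ k) = (p : ℂ) ^ (k + 1) := by
      rw [← pie_mul m hm e he]; ring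
    rw [e1] at d
    have hmo : (-1 : ℂ) ^ m = -1 := by
      apply Odd.neg_one_pow
      rw [Nat.odd_iff]; omega
    have e2 : (-1 : ℂ) ^ (m * (k + 1)) * (2 ^ m * (-(p : ℂ)) ^ (k + 1)) = 2 ^ m * (p : ℂ) ^ (k + 1) := by
      rw [pow_mul, hmo, neg_pow (p : ℂ) (k + 1)]
      have : (-1 : ℂ) ^ (k + 1) * (-1) ^ (k + 1) = 1 := by rw [← mul_pow]; norm_num
      linear_combination (2 ^ m * (p : ℂ) ^ (k + 1)) * this
    rw [e2] at d
    exact mul_right_cancel₀ (pow_ne_zero _ hpC) d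
  have d1 := (dets m hm hp3 1 (Or.inl rfl) g (g / p) (by push_cast; ring) (by field_simp)).2
  have d2 := (dets m hm hp3 (-1) (Or.inr rfl) (-g) (-g / p) (by push_cast; ring) (by field_simp)).2
  rw [key 1 g (Or.inl rfl) (by push_cast; ring), het] at d1
  rw [key (-1) (-g) (Or.inr rfl) (by push_cast; ring), het] at d2
  have hpm : (2 : ℂ) ^ m ≠ 0 := pow_ne_zero _ two_ne_zero
  have hg2' : (2 : ℂ) + -1 * g ≠ 0 := by
    intro h
    have hg' : g = 2 := by linear_combination -h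
    rw [hg'] at hg2
    have : (p : ℂ) + 4 = 0 := by linear_combination hg2
    have : ((p + 4 : ℕ) : ℂ) = 0 := by push_cast; exact this
    have : p + 4 = 0 := by exact_mod_cast this
    omega
  have hne : (HM p m (g / p)).det ≠ 0 := by
    rw [d1]
    exact mul_ne_zero hpm (div_ne_zero hg2' (mul_ne_zero two_ne_zero hg0))
  have ht : g / p ≠ 0 := div_ne_zero hg0 hpC
  rw [two_points m hm0 (g / p) ht hne x y z w]
  rw [show -(g / (p : ℂ)) = -g / p by ring, d1, d2]
  have h2m : (2 : ℂ) ^ m = 2 ^ (m - 1) * 2 := by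
    rw [← pow_succ, Nat.sub_add_cancel hm0]
  rw [h2m]
  field_simp
  linear_combination ((4 : ℂ) * x) * hg2

end three

section one

variable (h1 : p % 4 = 1)
include h1

/-- the half products are positive real numbers -/
lemma pie_norm (m : ℕ) (hm : p = 2 * m + 1) (e : ℤ) (he : e = 1 ∨ e = -1) :
    pie p e = ((∏ r ∈ Hf p e, ‖1 - sc p r‖ : ℝ) : ℂ) := by
  have hp2 : p ≠ 2 := by omega
  have hneg : ∀ k : ZMod p, (-k ∈ Hf p e) ↔ (k ∈ Hf p e) := by
    intro k
    rw [mem_Hf, mem_Hf]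
    have hq : quadraticChar (ZMod p) (-1) = 1 := by
      rw [quadraticChar_neg_one (by rw [ZMod.ringChar_zmod_n]; exact hp2), ZMod.card,
        ZMod.χ₄_nat_one_mod_four h1]
    have : quadraticChar (ZMod p) (-k) = quadraticChar (ZMod p) k := by
      have h : (-k) = (-1) * k := by ring
      rw [h, map_mul, hq, one_mul]
    rw [this]
  classical
  have h := prod_norm m hm (fun k => if k ∈ Hf p e then 1 - sc p k else 1) (by
    intro k
    by_cases hk : k ∈ Hf p e
    · simp only [hneg, hk, if_true]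
      rw [sc_conj, map_sub, map_one]
    · simp only [hneg, hk, if_false]
      rw [map_one])
  have hsub : Hf p e ⊆ univ.erase (0 : ZMod p) := by
    intro r hr
    simpa using Hf_ne he hr
  have e1 : ∏ k ∈ univ.erase (0 : ZMod p), (if k ∈ Hf p e then 1 - sc p k else 1) = pie p e := by
    rw [pie]
    symm
    rw [← Finset.prod_subset hsub (f := fun k => if k ∈ Hf p e then 1 - sc p k else 1)]
    · exact Finset.prod_congr rfl fun k hk => by rw [if_pos hk]
    · intro k _ hk; exact if_neg hk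
  have e2 : ∏ k ∈ univ.erase (0 : ZMod p), ‖(if k ∈ Hf p e then 1 - sc p k else 1)‖ = ∏ r ∈ Hf p e, ‖1 - sc p r‖ := by
    symm
    rw [← Finset.prod_subset hsub (f := fun k => ‖(if k ∈ Hf p e then 1 - sc p k else 1)‖)]
    · exact Finset.prod_congr rfl fun k hk => by rw [if_pos hk]
    · intro k _ hk; rw [if_neg hk]; simp
  rw [e1, e2] at h
  exact h

/-- `p ≡ 1 (mod 4)` -/
theorem one (m : ℕ) (hm : p = 2 * m + 1) (K : Type) [Field K] [NumberField K]
    (h2 : finrank ℚ K = 2) (β : K) (hβ : β ^ 2 = (p : K)) (φ : K →+* ℝ) (ε : ℝ) (hε : Pool.Agent.R945.RQ.IsFund K φ ε)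
    (a b : ℚ) (hab : ε ^ (classNumber K) = a + b * Real.sqrt p) (x y z w : ℂ) :
    (F4 p m x y z w).det = chi p ℂ 2 * 2 ^ (m - 1) *
      ((p * b - 2 * a) * x + (a - 2 * b) * (w * x - (y + 1) * (z + 1))) := by
  have hp : p.Prime := Fact.out
  have hp2 : p ≠ 2 := by omega
  have hp3 : 3 < p := by have := hp.two_le; omega
  have hpC : (p : ℂ) ≠ 0 := by exact_mod_cast hp.ne_zero
  have hm0 : 0 < m := by omega
  have hp0 : (0 : ℝ) < p := by exact_mod_cast hp.pos
  have hs0 : 0 < Real.sqrt p := Real.sqrt_pos.2 hp0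
  have hss : Real.sqrt p * Real.sqrt p = p := Real.mul_self_sqrt hp0.le
  have hε0 : 0 < ε := by have := hε.1; linarith
  obtain ⟨hR, hN⟩ := Pool.Agent.R945.RQ.prod_res h1 K h2 β hβ φ ε hε
  set H := ε ^ (classNumber K) with hH
  have hH0 : 0 < H := by positivity
  have hls : legendreSym p 2 = quadraticChar (ZMod p) 2 := by simp [legendreSym]
  -- the norm
  have hnorm : a ^ 2 + 1 = p * b ^ 2 := by
    rcases quadraticChar_dichotomy (two_ne' hp2) with h | h
    · have h5 : ε ^ ((2 - legendreSym p 2) * (classNumber K : ℤ)) = a + b * Real.sqrt p := by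
        rw [hls, h, show (2 - (1 : ℤ)) * (classNumber K : ℤ) = ((classNumber K : ℕ) : ℤ) by ring, zpow_natCast,
          ← hH, hab]
      obtain ⟨D', -, -⟩ := dat_of h1 m hm K h2 β hβ φ ε hε a b h5
      have := D'.hab
      exact_mod_cast this
    · have h5 : ε ^ ((2 - legendreSym p 2) * (classNumber K : ℤ)) =
          ((a ^ 3 + 3 * a * b ^ 2 * p : ℚ) : ℝ) + ((3 * a ^ 2 * b + b ^ 3 * p : ℚ) : ℝ) * Real.sqrt p := by
        rw [hls, h, show (2 - (-1 : ℤ)) * (classNumber K : ℤ) = ((classNumber K * 3 : ℕ) : ℤ) by push_cast; ring,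
          zpow_natCast, pow_mul, ← hH, hab]
        push_cast
        linear_combination (3 * (a : ℝ) * b ^ 2 + b ^ 3 * Real.sqrt p) * hss
      obtain ⟨D', -, -⟩ := dat_of h1 m hm K h2 β hβ φ ε hε _ _ h5
      have h6 := D'.hab
      have h7 : (a ^ 3 + 3 * a * b ^ 2 * p) ^ 2 + 1 = (p : ℚ) * (3 * a ^ 2 * b + b ^ 3 * p) ^ 2 := by
        exact_mod_cast h6
      have h8 : (a ^ 2 - p * b ^ 2 + 1) * ((a ^ 2 - p * b ^ 2) ^ 2 - (a ^ 2 - p * b ^ 2) + 1) = 0 := by
        linear_combination h7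
      rcases mul_eq_zero.mp h8 with h | h
      · linear_combination h
      · exfalso
        nlinarith [sq_nonneg (a ^ 2 - p * b ^ 2 - 1 / 2)]
  set r : ℂ := ((Real.sqrt p : ℝ) : ℂ) with hr
  have hrr : r * r = p := by
    rw [hr, ← Complex.ofReal_mul, hss]; simp
  have hr0 : r ≠ 0 := by rw [hr]; exact_mod_cast hs0.ne'
  have hg : gaussSum (chi p ℂ) (sc p) = r := g_eq h1
  have hHC : ((H : ℝ) : ℂ) = a + b * r := by rw [hab, hr]; push_cast; rfl
  have hnormC : (a : ℂ) ^ 2 + 1 = p * b ^ 2 := by exact_mod_cast hnorm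
  have hHi : (((H⁻¹ : ℝ)) : ℂ) = b * r - a := by
    have hHne : ((H : ℝ) : ℂ) ≠ 0 := by exact_mod_cast hH0.ne'
    rw [Complex.ofReal_inv]
    apply inv_eq_of_mul_eq_one_right
    rw [hHC]
    linear_combination (b : ℂ) ^ 2 * hrr - hnormC
  have hpi1 : pie p 1 = r * (b * r - a) := by
    rw [pie_norm h1 m hm 1 (Or.inl rfl)]
    have : ∏ j ∈ Hf p 1, ‖1 - sc p j‖ = Real.sqrt p * H⁻¹ := hR
    rw [this, Complex.ofReal_mul, hHi]
  have hpi2 : pie p (-1) = r * (a + b * r) := by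
    rw [pie_norm h1 m hm (-1) (Or.inr rfl)]
    have : ∏ j ∈ Hf p (-1), ‖1 - sc p j‖ = Real.sqrt p * H := hN
    rw [this, Complex.ofReal_mul, hHC]
  have hq : quadraticChar (ZMod p) (-1) = 1 := by
    rw [quadraticChar_neg_one (by rw [ZMod.ringChar_zmod_n]; exact hp2), ZMod.card,
      ZMod.χ₄_nat_one_mod_four h1]
  have het : et p ℂ = 1 := et_one h1
  obtain ⟨k1, k2⟩ := kk_eq m hm
  rw [hq] at k2
  have hchi : chi p ℂ 2 = (-1) ^ (m * (m + 1) / 2) := by
    rw [chi_apply, chi_two_sign m hm]; push_cast; rfl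
  have key : ∀ (e : ℤ) (γ : ℂ), (e = 1 ∨ e = -1) → γ = e * r →
      (HM p (m + 1) (γ / p)).det * pie p (-e) = chi p ℂ 2 * 2 ^ m * γ := by
    intro e γ he hγ
    obtain ⟨d, -⟩ := dets m hm hp3 e he γ (γ / p) (by rw [hγ, hg]) (by field_simp)
    have hee : (e : ℂ) * e = 1 := by rcases he with h | h <;> rw [h] <;> norm_num
    have hγ2 : γ ^ 2 = p := by
      rw [hγ]; linear_combination (e : ℂ) * e * hrr + p * hee
    obtain ⟨k, hk, hk'⟩ : ∃ k, kk p (-1) = k ∧ kk p 1 = k := ⟨kk p (-1), rfl, by omega⟩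
    have hmk : m = 2 * k := by omega
    rw [hk, hk', ← hchi, pow_succ γ m] at d
    rw [show γ ^ m = (γ ^ 2) ^ k by rw [← pow_mul, ← hmk], hγ2] at d
    have e1 : pie p (-e) * (pie p e ^ k * pie p (-e) ^ k) = pie p (-e) * (p : ℂ) ^ k := by
      rw [← mul_pow, pie_mul m hm e he]
    rw [e1] at d
    apply mul_right_cancel₀ (pow_ne_zero k hpC)
    linear_combination d
  have K1 := key 1 r (Or.inl rfl) (by push_cast; ring)
  have K2 := key (-1) (-r) (Or.inr rfl) (by push_cast; ring)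
  rw [hpi2] at K1
  rw [neg_neg, hpi1] at K2
  have v1 : (HM p (m + 1) (r / p)).det = chi p ℂ 2 * 2 ^ m * (b * r - a) := by
    have : r * ((HM p (m + 1) (r / p)).det - chi p ℂ 2 * 2 ^ m * (b * r - a)) = 0 := by
      linear_combination (b * r - a) * K1 - (HM p (m + 1) (r / p)).det * r * ((b : ℂ) ^ 2 * hrr - hnormC)
    exact sub_eq_zero.mp ((mul_eq_zero.mp this).resolve_left hr0)
  have v2 : (HM p (m + 1) (-r / p)).det = - (chi p ℂ 2 * 2 ^ m * (a + b * r)) := by
    have : r * ((HM p (m + 1) (-r / p)).det + (chi p ℂ 2 * 2 ^ m * (a + b * r))) = 0 := by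
      linear_combination (b * r + a) * K2 - (HM p (m + 1) (-r / p)).det * r * ((b : ℂ) ^ 2 * hrr - hnormC)
    linear_combination (mul_eq_zero.mp this).resolve_left hr0
  have d1 := (dets m hm hp3 1 (Or.inl rfl) r (r / p) (by rw [hg]; push_cast; ring) (by field_simp)).2
  have d2 := (dets m hm hp3 (-1) (Or.inr rfl) (-r) (-r / p) (by rw [hg]; push_cast; ring) (by field_simp)).2
  rw [v1, het] at d1
  rw [v2, het] at d2
  have hpm : (2 : ℂ) ^ m ≠ 0 := pow_ne_zero _ two_ne_zero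
  have hc2 : chi p ℂ 2 ≠ 0 := by
    rw [hchi]; exact pow_ne_zero _ (by norm_num)
  have hHi0 : (b : ℂ) * r - a ≠ 0 := by
    rw [← hHi]
    exact_mod_cast (inv_pos.mpr hH0).ne'
  have h2r : (2 : ℂ) + 1 * r ≠ 0 := by
    rw [one_mul, hr]
    have : (2 : ℝ) + Real.sqrt p ≠ 0 := by positivity
    exact_mod_cast this
  have hne : (HM p m (r / p)).det ≠ 0 := by
    rw [d1]
    exact mul_ne_zero (mul_ne_zero (mul_ne_zero hc2 hpm) hHi0) (div_ne_zero h2r (mul_ne_zero two_ne_zero hr0))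
  have ht : r / p ≠ 0 := div_ne_zero hr0 hpC
  rw [two_points m hm0 (r / p) ht hne x y z w]
  rw [show -(r / (p : ℂ)) = -r / p by ring, d1, d2]
  have h2m : (2 : ℂ) ^ m = 2 ^ (m - 1) * 2 := by
    rw [← pow_succ, Nat.sub_add_cancel hm0]
  rw [h2m, ← hrr]
  field_simp
  ring

end one

end Pool.Agent.K6.H19.LG
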